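import Mathlib
import Pool.Agent.H27.TEmbDefs
import Pool.Agent.H27.TEmbWrap

set_option autoImplicit false

/-!
No copy of a Cantor cube of uncountable weight is t-embedded in a Tychonoff cube.
-/

open Pool.Agent.H27.TEmb

/-- For every uncountable `S` and every `T`, no subspace of the Tychonoff cube `[0,1]^T` that is
homeomorphic to the Cantor cube `{0,1}^S` is t-embedded in `[0,1]^T`. With `S = T = ω₁` and
`Y = {0,1}^ω₁` this says that `D^ω₁` is not t-embedded in `[0,1]^ω₁`. -/
theorem Pool.Agent.Results.MP_5b7d0d_gt.NotTEmbedded.result :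
    ∀ (S : Type*) (T : Type*), Uncountable S →
      ∀ Y : Set (T → unitInterval), Nonempty (Y ≃ₜ (S → Bool)) → ¬ TEmbedded Y := by
  intro S T hS Y hY
  obtain ⟨h⟩ := hY
  exact not_tEmbedded Y h
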